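import Pool.Agent.TH762.FP.EngT

/-!
# The left set of `p-Clique` reduces to `p-Clique` with the same parameter
-/

set_option autoImplicit false

namespace Pool.Agent.TH762.FP

open Pool.Agent.NPC Pool.Agent.H579R2.Spt
open Pool.Agent.TH762.PT (Tree num brs mem_brs)

/-- adjacency -/
def adj (E : List (ℕ × ℕ)) (u v : ℕ) : Bool :=
  !decide (u = v) && (decide ((u, v) ∈ E) || decide ((v, u) ∈ E))

theorem adj_iff {E : List (ℕ × ℕ)} {u v : ℕ} :
    adj E u v = true ↔ u ≠ v ∧ ((u, v) ∈ E ∨ (v, u) ∈ E) := by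
  unfold adj
  simp

theorem adj_symm {E : List (ℕ × ℕ)} {u v : ℕ} (h : adj E u v = true) : adj E v u = true := by
  rw [adj_iff] at h ⊢
  exact ⟨h.1.symm, h.2.symm⟩

/-- there is a clique of `k` vertices -/
def HasClq (V : List ℕ) (E : List (ℕ × ℕ)) (k : ℕ) : Prop :=
  ∃ s : Finset ℕ, s.card = k ∧ (∀ v ∈ s, v ∈ V) ∧ ∀ u ∈ s, ∀ v ∈ s, u ≠ v → adj E u v = true

theorem mem_pclique {V : List ℕ} {E : List (ℕ × ℕ)} {k : ℕ} :
    ((bits (V, E), k) : List Bool × ℕ) ∈ PClique ↔ HasClq V E k := by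
  unfold PClique HasClq
  rw [Set.mem_ofPred_eq]
  constructor
  · rintro ⟨V', E', h, s, hs, hc⟩
    have h1 := bits_injective h
    rw [Prod.mk.injEq] at h1
    obtain ⟨rfl, rfl⟩ := h1
    rw [SimpleGraph.isNClique_iff] at hc
    refine ⟨s, hc.2, hs, fun u hu v hv huv => ?_⟩
    have h2 := hc.1 hu hv huv
    rw [SimpleGraph.fromRel_adj] at h2
    exact adj_iff.2 h2
  · rintro ⟨s, hk, hs, hc⟩
    refine ⟨V, E, rfl, s, hs, ?_⟩
    rw [SimpleGraph.isNClique_iff]
    refine ⟨fun u hu v hv huv => ?_, hk⟩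
    rw [SimpleGraph.fromRel_adj]
    exact adj_iff.1 (hc u hu v hv huv)

/-- the vertices of a list of positions -/
def vs (V : List ℕ) (u : List ℕ) : List ℕ := u.map fun d => V.getD d 0

/-- the positions extend to a clique -/
def gdc (V : List ℕ) (E : List (ℕ × ℕ)) (k : ℕ) (u : List ℕ) : Prop :=
  u.length ≤ k ∧ (∀ d ∈ u, d < V.length) ∧ (vs V u).Nodup ∧
    ∃ s : Finset ℕ, s.card = k ∧ (∀ v ∈ s, v ∈ V) ∧ (∀ u ∈ s, ∀ v ∈ s, u ≠ v → adj E u v = true) ∧
      ∀ x ∈ vs V u, x ∈ s

theorem gdc_nil {V : List ℕ} {E : List (ℕ × ℕ)} {k : ℕ} : gdc V E k [] ↔ HasClq V E k := by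
  unfold gdc HasClq vs
  simp

theorem tree_gdc (V : List ℕ) (E : List (ℕ × ℕ)) (k : ℕ) : Tree V.length k (gdc V E k) where
  pre := by
    rintro u c ⟨h1, h2, h3, s, h4, h5, h6, h7⟩
    rw [List.length_append, List.length_singleton] at h1
    unfold vs at h3 h7
    rw [List.map_append] at h3 h7
    exact ⟨by omega, fun d hd => h2 d (by simp [hd]), (List.nodup_append.1 h3).1, s, h4, h5, h6,
      fun x hx => h7 x (List.mem_append_left _ hx)⟩
  ext := by
    classical
    rintro u hu - ⟨h1, h2, h3, s, h4, h5, h6, h7⟩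
    have h8 : ∃ v ∈ s, v ∉ vs V u := by
      by_contra hcon
      push Not at hcon
      have h9 : s ⊆ (vs V u).toFinset := fun v hv => List.mem_toFinset.2 (hcon v hv)
      have h10 := Finset.card_le_card h9
      have h11 := List.toFinset_card_le (vs V u)
      have h12 : (vs V u).length = u.length := by
        unfold vs
        rw [List.length_map]
      omega
    obtain ⟨v, hv, hvu⟩ := h8
    obtain ⟨c, hc, hcv⟩ := List.getElem_of_mem (h5 v hv)
    have hgd : V.getD c 0 = v := by rw [List.getD_eq_getElem _ _ hc, hcv]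
    refine ⟨c, hc.le, ?_, ?_, ?_, s, h4, h5, h6, ?_⟩
    · rw [List.length_append, List.length_singleton]
      omega
    · intro d hd
      rcases List.mem_append.1 hd with h | h
      · exact h2 d h
      · rw [List.mem_singleton.1 h]
        exact hc
    · unfold vs at h3 hvu ⊢
      rw [List.map_append, List.map_singleton, hgd]
      refine List.nodup_append.2 ⟨h3, List.nodup_singleton _, ?_⟩
      rintro a ha b hb rfl
      rw [List.mem_singleton] at hb
      exact hvu (hb ▸ ha)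
    · intro x hx
      unfold vs at hx
      rw [List.map_append, List.map_singleton, hgd] at hx
      rcases List.mem_append.1 hx with h | h
      · exact h7 x h
      · rw [List.mem_singleton.1 h]
        exact hv

/-- the positions are the positions of a clique -/
def vld (V : List ℕ) (E : List (ℕ × ℕ)) (u : List ℕ) : Bool :=
  (u.all fun d => decide (d < V.length)) &&
    (List.range u.length).all fun i => (List.range u.length).all fun j =>
      decide (i ≤ j) || adj E ((vs V u).getD i 0) ((vs V u).getD j 0)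

theorem vld_iff {V : List ℕ} {E : List (ℕ × ℕ)} {u : List ℕ} : vld V E u = true ↔
    (∀ d ∈ u, d < V.length) ∧ (vs V u).Pairwise (fun a b => adj E a b = true) := by
  unfold vld
  rw [Bool.and_eq_true, List.all_eq_true, List.all_eq_true]
  simp only [decide_eq_true_eq, List.all_eq_true, List.mem_range, Bool.or_eq_true]
  refine and_congr Iff.rfl ?_
  rw [List.pairwise_iff_getElem]
  have hl : (vs V u).length = u.length := by
    unfold vs
    rw [List.length_map]
  constructor
  · intro h i j hi hj hij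
    have h1 := (h j (by omega) i (by omega)).resolve_left (by omega)
    rw [List.getD_eq_getElem _ _ hi, List.getD_eq_getElem _ _ hj] at h1
    exact adj_symm h1
  · intro h i hi j hj
    rcases Nat.lt_or_ge j i with hji | hji
    · have h1 := h j i (by omega) (by omega) hji
      refine Or.inr ?_
      rw [List.getD_eq_getElem _ _ (by omega), List.getD_eq_getElem _ _ (by omega)]
      exact adj_symm h1
    · exact Or.inl hji

theorem pairwise_nodup {E : List (ℕ × ℕ)} {l : List ℕ}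
    (h : l.Pairwise (fun a b => adj E a b = true)) : l.Nodup :=
  h.imp fun hab => (adj_iff.1 hab).1

theorem pairwise_mem {E : List (ℕ × ℕ)} {l : List ℕ}
    (h : l.Pairwise (fun a b => adj E a b = true)) {x y : ℕ} (hx : x ∈ l) (hy : y ∈ l)
    (hxy : x ≠ y) : adj E x y = true := by
  have : Std.Symm (fun a b : ℕ => adj E a b = true) := ⟨fun _ _ hab => adj_symm hab⟩
  exact h.forall hx hy hxy

theorem pairwise_of_mem {E : List (ℕ × ℕ)} {s : Finset ℕ}
    (h : ∀ u ∈ s, ∀ v ∈ s, u ≠ v → adj E u v = true) : ∀ {l : List ℕ}, l.Nodup →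
      (∀ x ∈ l, x ∈ s) → l.Pairwise (fun a b => adj E a b = true)
  | [], _, _ => List.Pairwise.nil
  | a :: l, hn, hl => by
    rw [List.nodup_cons] at hn
    refine List.pairwise_cons.2 ⟨fun b hb => ?_, pairwise_of_mem h hn.2 fun x hx =>
      hl x (List.mem_cons_of_mem _ hx)⟩
    exact h a (hl a (by simp)) b (hl b (List.mem_cons_of_mem _ hb)) fun hab => hn.1 (hab ▸ hb)

theorem mem_vs {V : List ℕ} {u : List ℕ} (h : ∀ d ∈ u, d < V.length) {x : ℕ}
    (hx : x ∈ vs V u) : x ∈ V := by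
  obtain ⟨d, hd, rfl⟩ := List.mem_map.1 hx
  rw [List.getD_eq_getElem _ _ (h d hd)]
  exact List.getElem_mem _

/-- the vertices which are in the clique or adjacent to all of it -/
def cmp (V : List ℕ) (E : List (ℕ × ℕ)) (u : List ℕ) : List ℕ :=
  V.filter fun w => (vs V u).all fun x => decide (w = x) || adj E w x

theorem mem_cmp {V : List ℕ} {E : List (ℕ × ℕ)} {u : List ℕ} {w : ℕ} : w ∈ cmp V E u ↔
    w ∈ V ∧ ∀ x ∈ vs V u, w = x ∨ adj E w x = true := by
  unfold cmp
  rw [List.mem_filter, List.all_eq_true]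
  simp only [Bool.or_eq_true, decide_eq_true_eq]

theorem gdc_iff {V : List ℕ} {E : List (ℕ × ℕ)} {k : ℕ} {u : List ℕ} (hu : u.length ≤ k) :
    gdc V E k u ↔ vld V E u = true ∧ HasClq (cmp V E u) E k := by
  classical
  rw [vld_iff]
  constructor
  · rintro ⟨h1, h2, h3, s, h4, h5, h6, h7⟩
    refine ⟨⟨h2, pairwise_of_mem h6 h3 h7⟩, s, h4, fun v hv => mem_cmp.2 ⟨h5 v hv,
      fun x hx => ?_⟩, h6⟩
    by_cases hvx : v = x
    · exact Or.inl hvx
    · exact Or.inr (h6 v hv x (h7 x hx) hvx)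
  · rintro ⟨⟨h1, h2⟩, s, h3, h4, h5⟩
    have hnd := pairwise_nodup h2
    have hT : ((vs V u).toFinset).card = u.length := by
      rw [List.toFinset_card_of_nodup hnd]
      unfold vs
      rw [List.length_map]
    obtain ⟨t, ht1, ht2, ht3⟩ := Finset.exists_subsuperset_card_eq
      (s := (vs V u).toFinset) (t := s ∪ (vs V u).toFinset) (n := k)
      Finset.subset_union_right (by omega)
      (h3.ge.trans (Finset.card_le_card Finset.subset_union_left))
    have h6 : ∀ v ∈ t, v ∈ s ∨ v ∈ vs V u := fun v hv => by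
      rcases Finset.mem_union.1 (ht2 hv) with h | h
      · exact Or.inl h
      · exact Or.inr (List.mem_toFinset.1 h)
    refine ⟨hu, h1, hnd, t, ht3, fun v hv => ?_, fun x hx y hy hxy => ?_, fun x hx =>
      ht1 (List.mem_toFinset.2 hx)⟩
    · rcases h6 v hv with h | h
      · exact (mem_cmp.1 (h4 v h)).1
      · exact mem_vs h1 h
    · rcases h6 x hx with hx' | hx' <;> rcases h6 y hy with hy' | hy'
      · exact h5 x hx' y hy' hxy
      · exact ((mem_cmp.1 (h4 x hx')).2 y hy').resolve_left hxy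
      · exact adj_symm (((mem_cmp.1 (h4 y hy')).2 x hx').resolve_left (Ne.symm hxy))
      · exact pairwise_mem h2 hx' hy' hxy

/-! ### The disjoint union -/

/-- the vertices of the disjoint union -/
def hv (V : List ℕ) (E : List (ℕ × ℕ)) (B : List (List ℕ)) : List ℕ :=
  (List.range B.length).flatMap fun i => if vld V E (B.getD i []) = true then
    (cmp V E (B.getD i [])).map (fun w => w * B.length + i) else []

/-- the edges of the disjoint union -/
def he (E : List (ℕ × ℕ)) (L : ℕ) : List (ℕ × ℕ) :=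
  (List.range L).flatMap fun i => E.map fun e => (e.1 * L + i, e.2 * L + i)

theorem mem_hv {V : List ℕ} {E : List (ℕ × ℕ)} {B : List (List ℕ)} {v : ℕ} : v ∈ hv V E B ↔
    ∃ i < B.length, vld V E (B.getD i []) = true ∧ ∃ w ∈ cmp V E (B.getD i []),
      v = w * B.length + i := by
  unfold hv
  rw [List.mem_flatMap]
  constructor
  · rintro ⟨i, hi, h⟩
    rw [List.mem_range] at hi
    split_ifs at h with h1
    · obtain ⟨w, hw, rfl⟩ := List.mem_map.1 h
      exact ⟨i, hi, h1, w, hw, rfl⟩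
    · simp at h
  · rintro ⟨i, hi, h1, w, hw, rfl⟩
    refine ⟨i, List.mem_range.2 hi, ?_⟩
    rw [if_pos h1]
    exact List.mem_map.2 ⟨w, hw, rfl⟩

theorem mem_he {E : List (ℕ × ℕ)} {L : ℕ} {p : ℕ × ℕ} : p ∈ he E L ↔
    ∃ i < L, ∃ e ∈ E, p = (e.1 * L + i, e.2 * L + i) := by
  unfold he
  rw [List.mem_flatMap]
  constructor
  · rintro ⟨i, hi, h⟩
    obtain ⟨e, he, rfl⟩ := List.mem_map.1 h
    exact ⟨i, List.mem_range.1 hi, e, he, rfl⟩
  · rintro ⟨i, hi, e, he, rfl⟩
    exact ⟨i, List.mem_range.2 hi, List.mem_map.2 ⟨e, he, rfl⟩⟩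

theorem rdiv {w L i : ℕ} (hi : i < L) : (w * L + i) / L = w := by
  rw [Nat.add_comm, Nat.add_mul_div_right _ _ (by omega), Nat.div_eq_of_lt hi, zero_add]

theorem rmod {w L i : ℕ} (hi : i < L) : (w * L + i) % L = i := by
  rw [Nat.add_comm, Nat.add_mul_mod_self_right, Nat.mod_eq_of_lt hi]

theorem adj_he {E : List (ℕ × ℕ)} {L u v : ℕ} (h : adj (he E L) u v = true) :
    u % L = v % L ∧ adj E (u / L) (v / L) = true := by
  obtain ⟨h1, h2⟩ := adj_iff.1 h
  have h3 : u % L = v % L ∧ ((u / L, v / L) ∈ E ∨ (v / L, u / L) ∈ E) := by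
    rcases h2 with h2 | h2
    · obtain ⟨i, hi, e, he, hp⟩ := mem_he.1 h2
      rw [Prod.mk.injEq] at hp
      obtain ⟨rfl, rfl⟩ := hp
      rw [rdiv hi, rdiv hi, rmod hi, rmod hi]
      exact ⟨rfl, Or.inl he⟩
    · obtain ⟨i, hi, e, he, hp⟩ := mem_he.1 h2
      rw [Prod.mk.injEq] at hp
      obtain ⟨rfl, rfl⟩ := hp
      rw [rdiv hi, rdiv hi, rmod hi, rmod hi]
      exact ⟨rfl, Or.inr he⟩
  refine ⟨h3.1, adj_iff.2 ⟨fun h4 => h1 ?_, h3.2⟩⟩
  rw [← Nat.div_add_mod u L, ← Nat.div_add_mod v L, h4, h3.1]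

theorem hasClq_union {V : List ℕ} {E : List (ℕ × ℕ)} {B : List (List ℕ)} {k : ℕ} (hk : 1 ≤ k) :
    HasClq (hv V E B) (he E B.length) k ↔ ∃ τ ∈ B, vld V E τ = true ∧ HasClq (cmp V E τ) E k := by
  classical
  constructor
  · rintro ⟨s, hs1, hs2, hs3⟩
    obtain ⟨v₀, hv₀⟩ := Finset.card_pos.1 (by omega : 0 < s.card)
    obtain ⟨i, hi, hvl, w₀, hw₀, e₀⟩ := mem_hv.1 (hs2 v₀ hv₀)
    have hmod : ∀ v ∈ s, v % B.length = i := by
      intro v hv
      by_cases h : v = v₀
      · rw [h, e₀, rmod hi]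
      · have h1 := (adj_he (hs3 v hv v₀ hv₀ h)).1
        rw [h1, e₀, rmod hi]
    have hinj : ∀ u ∈ s, ∀ v ∈ s, u / B.length = v / B.length → u = v := by
      intro u hu v hv h
      rw [← Nat.div_add_mod u B.length, ← Nat.div_add_mod v B.length, h, hmod u hu, hmod v hv]
    refine ⟨B.getD i [], ?_, hvl, s.image (· / B.length), ?_, ?_, ?_⟩
    · rw [List.getD_eq_getElem _ _ hi]
      exact List.getElem_mem _
    · rw [Finset.card_image_of_injOn (fun u hu v hv h => hinj u hu v hv h), hs1]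
    · intro x hx
      obtain ⟨v, hv, rfl⟩ := Finset.mem_image.1 hx
      obtain ⟨j, hj, _, w, hw, e⟩ := mem_hv.1 (hs2 v hv)
      have h1 := hmod v hv
      rw [e, rmod hj] at h1
      subst h1
      rw [e, rdiv hj]
      exact hw
    · intro x hx y hy hxy
      obtain ⟨u, hu, rfl⟩ := Finset.mem_image.1 hx
      obtain ⟨v, hv, rfl⟩ := Finset.mem_image.1 hy
      exact (adj_he (hs3 u hu v hv fun h => hxy (by rw [h]))).2
  · rintro ⟨τ, hτ, hvl, s, hs1, hs2, hs3⟩
    obtain ⟨i, hi, rfl⟩ := List.getElem_of_mem hτ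
    have hgd : B.getD i [] = B[i] := List.getD_eq_getElem _ _ hi
    have hinj : ∀ u v : ℕ, u * B.length + i = v * B.length + i → u = v := by
      intro u v h
      have h1 : (u * B.length + i) / B.length = (v * B.length + i) / B.length := by rw [h]
      rwa [rdiv hi, rdiv hi] at h1
    refine ⟨s.image (fun w => w * B.length + i), ?_, ?_, ?_⟩
    · rw [Finset.card_image_of_injOn (fun u _ v _ h => hinj u v h), hs1]
    · intro x hx
      obtain ⟨w, hw, rfl⟩ := Finset.mem_image.1 hx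
      exact mem_hv.2 ⟨i, hi, by rw [hgd]; exact hvl, w, by rw [hgd]; exact hs2 w hw, rfl⟩
    · intro x hx y hy hxy
      obtain ⟨u, hu, rfl⟩ := Finset.mem_image.1 hx
      obtain ⟨v, hv, rfl⟩ := Finset.mem_image.1 hy
      have huv : u ≠ v := fun h => hxy (by rw [h])
      obtain ⟨_, h2⟩ := adj_iff.1 (hs3 u hu v hv huv)
      refine adj_iff.2 ⟨hxy, ?_⟩
      rcases h2 with h2 | h2
      · exact Or.inl (mem_he.2 ⟨i, hi, _, h2, rfl⟩)
      · exact Or.inr (mem_he.2 ⟨i, hi, _, h2, rfl⟩)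

/-- **The left set.** -/
theorem left_iff {V : List ℕ} {E : List (ℕ × ℕ)} {k : ℕ} {u : List ℕ} (hu : u.length ≤ k)
    (hd : ∀ d ∈ u, d ≤ V.length) :
    HasClq (hv V E (brs V.length u)) (he E (brs V.length u).length) k ↔
      ∃ σ : List ℕ, σ.length = u.length ∧ (∀ d ∈ σ, d ≤ V.length) ∧ gdc V E k σ ∧
        num V.length u ≤ num V.length σ := by
  rcases Nat.eq_zero_or_pos k with rfl | hk
  · have h0 : u = [] := List.length_eq_zero_iff.1 (by omega)
    subst h0
    refine iff_of_true ⟨∅, by simp, by simp, by simp⟩ ⟨[], rfl, by simp, ?_, le_rfl⟩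
    exact gdc_nil.2 ⟨∅, by simp, by simp, by simp⟩
  · rw [hasClq_union hk, ← (tree_gdc V E k).brs_iff hu hd]
    refine exists_congr fun τ => and_congr_right fun hτ => (gdc_iff ?_).symm
    rcases mem_brs.1 hτ with rfl | ⟨l, hl, c, _, _, rfl⟩
    · exact hu
    · rw [List.length_append, List.length_take, List.length_singleton]
      omega

end Pool.Agent.TH762.FP
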