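import Pool.Agent.TH684.EX.Defs

/-!
# Parameterized problems and exclusion: definitions

A parameterized problem is a set of pairs `(x, k)` of a string and a parameter.

Fixed-parameter algorithms are polynomial-time algorithms which get, together with the input
`(x, k)`, a string `θ k`, where `θ` is a computable function. This is the well-known characterization
of running time `f(k) |x| ^ O(1)`, `f` computable, by a precomputation on the parameter.
Polynomial time is Mathlib's `Turing.TM2ComputableInPolyTime` (through `Pool.Agent.NPC.PolyTime`).
-/

set_option autoImplicit false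

namespace Pool.Agent.TH762.FP

open Pool.Agent.NPC Pool.Agent.H251R5.PQ

/-- The parameterized problem `Q` is fixed-parameter tractable: for some computable `θ` it is decided
in polynomial time from the string `x` and the string `θ k`. -/
def InFPT (Q : Set (List Bool × ℕ)) : Prop :=
  ∃ (θ : ℕ → List Bool) (V : List Bool → List Bool), Computable θ ∧ PolyTime V ∧
    ∀ x k, (x, k) ∈ Q ↔ V (pairBits x (θ k)) = [true]

/-- fpt-reducibility: for some computable `θ` the instance `(x, k)` is mapped, in polynomial time
from `x` and `θ k`, to an instance whose parameter is at most a computable function of `k`. -/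
def FptReduces (Q Q' : Set (List Bool × ℕ)) : Prop :=
  ∃ (θ : ℕ → List Bool) (g : ℕ → ℕ) (R : List Bool → List Bool) (r : List Bool → ℕ),
    Computable θ ∧ Computable g ∧ PolyTime R ∧ PolyTime (fun z => bits (r z)) ∧
    ∀ x k, ((x, k) ∈ Q ↔ (R (pairBits x (θ k)), r (pairBits x (θ k))) ∈ Q') ∧
      r (pairBits x (θ k)) ≤ g k

/-- `p-Clique`: the pairs `(x, k)` such that `x` is the code of a list of vertices and a list of edges
of a graph which has a clique of `k` vertices. (Vertices are numbers; `u` and `v` are adjacent if
they are different and `(u, v)` or `(v, u)` is in the list of edges.) -/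
def PClique : Set (List Bool × ℕ) :=
  {q | ∃ (V : List ℕ) (E : List (ℕ × ℕ)), q.1 = bits (V, E) ∧ ∃ s : Finset ℕ,
    (∀ v ∈ s, v ∈ V) ∧ (SimpleGraph.fromRel fun u v => (u, v) ∈ E).IsNClique q.2 s}

open Classical in
/-- the vector of the answers to the questions `q ∈ A` -/
noncomputable def yesno (A : Set (List Bool × ℕ)) (qs : List (List Bool × ℕ)) : List Bool :=
  qs.map fun q => decide (q ∈ A)

/-- Some fixed-parameter algorithm `X` solves the task `T` (which output numbers are right for which
lists of instances) in the following weak sense: for all `n` and `κ` there are a number `m` and a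
number `a` (advice), both at most `(n + |θ κ|) ^ b + b`, such that the output of `X` on the list, `a`
and `θ κ` is right for all lists of `m` instances of length at most `n` with parameters at
most `κ`. -/
def FptFeasible (T : List (List Bool × ℕ) → ℕ → Prop) : Prop :=
  ∃ (θ : ℕ → List Bool) (X : List Bool → ℕ) (b : ℕ), Computable θ ∧
    PolyTime (fun z => bits (X z)) ∧
    ∀ n κ : ℕ, ∃ m a : ℕ, m ≤ (n + (θ κ).length) ^ b + b ∧ a ≤ (n + (θ κ).length) ^ b + b ∧
      ∀ qs : List (List Bool × ℕ), qs.length = m → (∀ q ∈ qs, q.1.length ≤ n ∧ q.2 ≤ κ) →
        T qs (X (pairBits (bits (qs, a)) (θ κ)))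

/-- The task to exclude one of the `m + 1` sorted vectors `1 ^ c 0 ^ (m - c)` as the vector of the
answers to the questions `q ∈ A`, `q` in a list of `m` instances. -/
def ExcludeSorted (A : Set (List Bool × ℕ)) (qs : List (List Bool × ℕ)) (c : ℕ) : Prop :=
  c ≤ qs.length ∧ yesno A qs ≠ List.replicate c true ++ List.replicate (qs.length - c) false

/-- The task to exclude one of the `m + 1` possible values of the number of members of `A` in a list
of `m` instances. -/
def ExcludeCount (A : Set (List Bool × ℕ)) (qs : List (List Bool × ℕ)) (c : ℕ) : Prop :=
  c ≤ qs.length ∧ (yesno A qs).count true ≠ c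

/-- For some oracle `O` (an arbitrary set of strings), the number of members of `A` can be computed
by a fixed-parameter algorithm with at most `log₂ m` (rounded down) adaptive questions to `O`, in the
same weak sense: for all `n` and `κ` there are a number `m ≥ 1` and a number `a` (advice) such that
this works for all lists of `m` instances of length at most `n` with parameters at most `κ`. The next
question is computed by `q` from the input (the list, `a` and `θ κ`) and the answers obtained so far,
the result by `g` from the input and all answers. -/
def FptCountQuestions (A : Set (List Bool × ℕ)) : Prop :=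
  ∃ (θ : ℕ → List Bool) (O : Set (List Bool)) (q : List Bool → List Bool) (g : List Bool → ℕ)
    (b : ℕ), Computable θ ∧ PolyTime q ∧ PolyTime (fun z => bits (g z)) ∧
    ∀ n κ : ℕ, ∃ m a : ℕ, 1 ≤ m ∧ m ≤ (n + (θ κ).length) ^ b + b ∧
      a ≤ (n + (θ κ).length) ^ b + b ∧
      ∀ qs : List (List Bool × ℕ), qs.length = m → (∀ q ∈ qs, q.1.length ≤ n ∧ q.2 ≤ κ) →
        g (pairBits (pairBits (bits (qs, a)) (θ κ))
          (adaptive O q (pairBits (bits (qs, a)) (θ κ)) (Nat.log 2 m))) = (yesno A qs).count true

end Pool.Agent.TH762.FP
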