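import Pool.Agent.TH762.FP.Defs
import Pool.Agent.TH762.PT.EngC
import Pool.Agent.TH762.PT.Thm

/-!
# The search with fixed-parameter exclusion
-/

set_option autoImplicit false

namespace Pool.Agent.TH762.FP

open Pool.Agent.NPC Pool.Agent.H579R2.Spt Pool.Agent.H251R5.PQ Pool.Agent.TH684.EX
open Pool.Agent.TH762.PT (Tree num cds cds_poly cds_correct sz_digits)
open Pool.Agent.W901.FH (pow_upolyc)

/-- the question coded by a string -/
def dck (κ : ℕ) (z : List Bool) : List Bool × ℕ :=
  (unbits (List Bool × ℕ) z).elim ([], 0) fun q => if q.2 ≤ κ then q else ([], 0)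

theorem dck_poly {α : Type} [TEnc α] {κ : α → ℕ} {z : α → List Bool} (hκ : Poly κ)
    (hz : Poly z) : Poly (fun a => dck (κ a) (z a)) := by
  refine NPC.Poly.optElim (o := fun a => unbits (List Bool × ℕ) (z a))
    (g := fun _ => (([], 0) : List Bool × ℕ)) (h := fun a q => if q.2 ≤ κ a then q else ([], 0))
    (poly_unbits.comp hz) (NPC.Poly.const _) ?_
  exact NPC.Poly.ite (NPC.Poly.decide_le (NPC.Poly.snd (NPC.Poly.snd NPC.Poly.id))
    (hκ.comp (NPC.Poly.fst NPC.Poly.id))) (NPC.Poly.snd NPC.Poly.id) (NPC.Poly.const _)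

theorem dck_bits {κ : ℕ} {q : List Bool × ℕ} (h : q.2 ≤ κ) : dck κ (bits q) = q := by
  unfold dck
  rw [unbits_bits, Option.elim_some, if_pos h]

theorem dck_snd (κ : ℕ) (z : List Bool) : (dck κ z).2 ≤ κ := by
  unfold dck
  cases unbits (List Bool × ℕ) z with
  | none => simp
  | some q =>
    rw [Option.elim_some]
    split_ifs with h
    · exact h
    · simp

theorem dck_fst (κ : ℕ) (z : List Bool) : (dck κ z).1.length ≤ z.length := by
  unfold dck
  cases h : unbits (List Bool × ℕ) z with
  | none => simp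
  | some q =>
    rw [Option.elim_some]
    have h1 := bits_of_unbits h
    split_ifs with h2
    · rw [← h1, bits_length]
      have h3 : sz q = sz (q.1, q.2) := rfl
      rw [h3, sz_pair]
      have := length_lt_sz q.1
      omega
    · simp

/-- the excluding function for the complement, with the vectors in the reverse order -/
def xk (X : List Bool → ℕ) (κ : ℕ) (th : List Bool) (z : List Bool) : ℕ :=
  (dp z).1.length - X (pairBits (bits (((dp z).1.map (dck κ)).reverse, (dp z).2)) th)

theorem xk_poly {X : List Bool → ℕ} (hX : Poly X) {α : Type} [TEnc α] {κ : α → ℕ}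
    {th z : α → List Bool} (hκ : Poly κ) (hth : Poly th) (hz : Poly z) :
    Poly (fun a => xk X (κ a) (th a) (z a)) := by
  have h0 : Poly (fun a => dp (z a)) := dp_poly.comp hz
  have h1 : Poly (fun a => (dp (z a)).1.map (dck (κ a))) := by
    refine NPC.Poly.map (l := fun a => (dp (z a)).1) (F := fun a y => dck (κ a) y)
      (NPC.Poly.fst h0) ?_
    exact dck_poly (hκ.comp (NPC.Poly.fst NPC.Poly.id)) (NPC.Poly.snd NPC.Poly.id)
  have h2 : Poly (fun a => bits (((dp (z a)).1.map (dck (κ a))).reverse, (dp (z a)).2)) :=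
    bits_poly.comp (NPC.Poly.pair (NPC.Poly.reverse h1) (NPC.Poly.snd h0))
  exact NPC.Poly.sub (NPC.Poly.length (NPC.Poly.fst h0))
    (hX.comp (H622R2.poly_pairBits h2 hth))

/-- the set of strings given by a parameterized problem, for parameters at most `κ` -/
def setk (A : Set (List Bool × ℕ)) (κ : ℕ) : Set (List Bool) := {z | dck κ z ∉ A}

open Classical in
theorem answers_setk (A : Set (List Bool × ℕ)) (κ : ℕ) (ys : List (List Bool)) :
    answers (setk A κ) ys = (yesno A (ys.map (dck κ))).map not := by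
  unfold answers yesno setk
  rw [List.map_map, List.map_map]
  refine List.map_congr_left fun y _ => ?_
  simp only [Function.comp_apply, Set.mem_ofPred_eq]
  by_cases h : dck κ y ∈ A <;> simp [h]

theorem exclude_setk {A : Set (List Bool × ℕ)} {κ c : ℕ} {th : List Bool} {X : List Bool → ℕ}
    {ys : List (List Bool)} (h : ExcludeSorted A ((ys.map (dck κ)).reverse)
      (X (pairBits (bits ((ys.map (dck κ)).reverse, c)) th))) :
    Exclude Lthr (setk A κ) ys (xk X κ th (bits (ys, c))) := by
  unfold xk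
  rw [dp_bits]
  simp only
  obtain ⟨h1, h2⟩ := h
  set v := X (pairBits (bits ((ys.map (dck κ)).reverse, c)) th) with hv
  rw [List.length_reverse, List.length_map] at h1 h2
  unfold Exclude
  intro h3
  refine h2 ?_
  rw [vec_lthr] at h3
  obtain ⟨k, hk⟩ := Nat.exists_eq_add_of_le h1
  have h4 : (List.range ys.length).map (fun i => decide (i < ys.length - v)) =
      List.replicate k true ++ List.replicate v false := by
    rw [hk, Nat.add_sub_cancel_left, Nat.add_comm v k, List.range_add, List.map_append,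
      List.map_map]
    congr 1
    · refine List.eq_replicate_iff.2 ⟨by simp, fun b hb => ?_⟩
      obtain ⟨i, hi, rfl⟩ := List.mem_map.1 hb
      simpa using hi
    · refine List.eq_replicate_iff.2 ⟨by simp, fun b hb => ?_⟩
      obtain ⟨i, _, rfl⟩ := List.mem_map.1 hb
      simp
  rw [h4, answers_setk] at h3
  have h5 : yesno A ((ys.map (dck κ)).reverse) = (yesno A (ys.map (dck κ))).reverse := by
    unfold yesno
    rw [List.map_reverse]
  have h6 := congrArg (fun l => (l.map not).reverse) h3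
  simp only [List.map_map, List.map_append, List.map_replicate, List.reverse_append,
    List.reverse_replicate, Bool.not_true, Bool.not_false] at h6
  have h7 : (not ∘ not : Bool → Bool) = id := by
    funext b
    simp
  rw [h7, List.map_id] at h6
  rw [h5, h6]
  congr 2
  omega

/-- **The engine.** -/
theorem engineT {A : Set (List Bool × ℕ)} {θ : ℕ → List Bool} {X : List Bool → ℕ} {b : ℕ}
    (hX : PolyTime (fun z => bits (X z)))
    (hex : ∀ n κ : ℕ, ∃ m a : ℕ, m ≤ (n + (θ κ).length) ^ b + b ∧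
      a ≤ (n + (θ κ).length) ^ b + b ∧ ∀ qs : List (List Bool × ℕ), qs.length = m →
        (∀ q ∈ qs, q.1.length ≤ n ∧ q.2 ≤ κ) →
          ExcludeSorted A qs (X (pairBits (bits (qs, a)) (θ κ))))
    {α : Type} [TEnc α] {D n κ : α → ℕ} {th : α → List Bool} (hD : UPoly D) (hn : UPoly n)
    (hκ : Poly κ) (hth : Poly th) {qz : α × List ℕ → List Bool × ℕ} (hq : Poly qz) :
    ∃ G : α → List (List ℕ), Poly G ∧ ∀ (a : α) (good : List ℕ → Prop), th a = θ (κ a) →
      Tree (D a) (n a) good → good [] →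
      (∀ u : List ℕ, u.length ≤ n a → (∀ d ∈ u, d ≤ D a) → (qz (a, u)).2 ≤ κ a ∧
        (qz (a, u) ∈ A ↔ ∃ σ : List ℕ, σ.length = u.length ∧ (∀ d ∈ σ, d ≤ D a) ∧ good σ ∧
          num (D a) u ≤ num (D a) σ)) →
      ∃ t ∈ G a, t.length = n a ∧ (∀ d ∈ t, d ≤ D a) ∧ good t := by
  have hXp : Poly X := poly_of_polyTime hX
  obtain ⟨p1, hp1⟩ := hq.sz_le
  have hszU : UPoly (fun a : α => sz a) := UPoly.length (bits_poly (α := α))
  set N : α → ℕ := fun a => p1.eval (sz a + (n a * (4 * D a + 2) + 1) + 1) with hN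
  have hNU : UPoly N := ((hszU.add ((hn.mul (((UPoly.const 4).mul hD).add (UPoly.const 2))).add
    (UPoly.const 1))).add (UPoly.const 1)).eval p1
  set M : α → ℕ := fun a => (N a + (th a).length) ^ b + b with hM
  have hMU : UPoly M := (pow_upolyc (hNU.add (UPoly.length hth)) b).add (UPoly.const b)
  set F : α → ℕ → List (List ℕ) → ℕ := fun a c V =>
    xk X (κ a) (th a) (bits (V.map (fun u => bits (qz (a, u))), c)) with hF
  refine ⟨fun a => (List.range (M a + 1)).flatMap fun m => (List.range (M a + 1)).flatMap fun c =>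
    cds (F a c) (min m (M a)) (D a) (n a), ?_, ?_⟩
  · refine NPC.Poly.flatMap (l := fun a => List.range (M a + 1)) (F := fun a m =>
      (List.range (M a + 1)).flatMap fun c => cds (F a c) (min m (M a)) (D a) (n a))
      (hMU.add (UPoly.const 1)).range ?_
    have e1 : Poly (fun p : α × ℕ => p.1) := NPC.Poly.fst NPC.Poly.id
    refine NPC.Poly.flatMap (l := fun p : α × ℕ => List.range (M p.1 + 1)) (F := fun p c =>
      cds (F p.1 c) (min p.2 (M p.1)) (D p.1) (n p.1)) ((hMU.comp e1).add (UPoly.const 1)).range ?_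
    have e2 : Poly (fun p : (α × ℕ) × ℕ => p.1.1) := e1.comp (NPC.Poly.fst NPC.Poly.id)
    refine cds_poly (f := fun (p : (α × ℕ) × ℕ) V => F p.1.1 p.2 V) ?_ ?_ (hD.comp e2) (hn.comp e2)
    · simp only [hF]
      have e3 : Poly (fun p : ((α × ℕ) × ℕ) × List (List ℕ) => p.1.1.1) :=
        e2.comp (NPC.Poly.fst NPC.Poly.id)
      refine xk_poly hXp (hκ.comp e3) (hth.comp e3) (bits_poly.comp (NPC.Poly.pair ?_
        (NPC.Poly.snd (NPC.Poly.fst NPC.Poly.id))))
      refine NPC.Poly.map (l := fun p : ((α × ℕ) × ℕ) × List (List ℕ) => p.2)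
        (F := fun p u => bits (qz (p.1.1.1, u))) (NPC.Poly.snd NPC.Poly.id) ?_
      exact bits_poly.comp (hq.comp (NPC.Poly.pair (e3.comp (NPC.Poly.fst NPC.Poly.id))
        (NPC.Poly.snd NPC.Poly.id)))
    · exact UPoly.of_le (NPC.Poly.min (NPC.Poly.snd (NPC.Poly.fst NPC.Poly.id))
        (hMU.comp e2).toPoly) (hMU.comp e2) fun p => min_le_right _ _
  · intro a good hθ hT h0 hqz
    obtain ⟨m, c, hm, hc, h1⟩ := hex (N a) (κ a)
    rw [← hθ] at hm hc h1
    have hlen : ∀ u : List ℕ, u.length ≤ n a → (∀ d ∈ u, d ≤ D a) →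
        (bits (qz (a, u))).length ≤ N a := by
      intro u hu hd
      have h2 := hp1 (a, u)
      have h4 := sz_digits u hd
      have h5 : u.length * (4 * D a + 2) ≤ n a * (4 * D a + 2) := Nat.mul_le_mul_right _ hu
      have h6 : sz (a, u) ≤ sz a + (n a * (4 * D a + 2) + 1) + 1 := by
        rw [sz_pair]
        omega
      rw [bits_length]
      exact h2.trans (eval_mono p1 h6)
    have hXe : ∀ ys : List (List Bool), ys.length = m → (∀ y ∈ ys, y.length ≤ N a) →
        Exclude Lthr (setk A (κ a)) ys (xk X (κ a) (th a) (bits (ys, c))) := by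
      intro ys hys hyl
      refine exclude_setk (h1 _ (by rw [List.length_reverse, List.length_map, hys]) ?_)
      intro q hqm
      obtain ⟨y, hy, rfl⟩ := List.mem_map.1 (List.mem_reverse.1 hqm)
      exact ⟨(dck_fst _ _).trans (hyl y hy), dck_snd _ _⟩
    obtain ⟨t, ht1, ht2, ht3, ht4⟩ := hT.exists_max h0 (le_refl (n a))
    have h2 := cds_correct (X := xk X (κ a) (th a)) (c := c) hXe hlen hT h0 (fun u hu hd => by
      obtain ⟨h3, h4⟩ := hqz u hu hd
      rw [← h4]
      show dck (κ a) (bits (qz (a, u))) ∉ A ↔ _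
      rw [dck_bits h3]) (n a) le_rfl t ht1 ht2 ht3 ht4
    refine ⟨t, ?_, ht1, ht2, ht3⟩
    refine List.mem_flatMap.2 ⟨m, List.mem_range.2 (Nat.lt_succ_of_le hm), ?_⟩
    refine List.mem_flatMap.2 ⟨c, List.mem_range.2 (Nat.lt_succ_of_le hc), ?_⟩
    rw [min_eq_left (show m ≤ M a from hm)]
    exact h2

end Pool.Agent.TH762.FP
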