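import Pool.Agent.TH762.FP.Pol

/-!
# The exclusion law for `W[1]`
-/

set_option autoImplicit false

namespace Pool.Agent.TH762.FP

open Pool.Agent.NPC Pool.Agent.H579R2.Spt Pool.Agent.H251R5.PQ Pool.Agent.TH684.EX
open Pool.Agent.TH762.PT (Tree num)

/-! ### Computable functions -/

theorem primrec_pairBits : Primrec₂ pairBits := by
  unfold pairBits
  have h1 : Primrec (fun p : List Bool × List Bool => p.1.flatMap (fun b => [true, b])) :=
    Primrec.list_flatMap Primrec.fst ((Primrec.list_cons.comp (Primrec.const true)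
      (Primrec.list_cons.comp Primrec.snd (Primrec.const []))).to₂)
  exact Primrec.list_append.comp h1
    (Primrec.list_cons.comp (Primrec.const false) Primrec.snd)

theorem computable_pair {f g : ℕ → List Bool} (hf : Computable f) (hg : Computable g) :
    Computable (fun k => pairBits (f k) (g k)) := primrec_pairBits.to_comp.comp hf hg

theorem primrec_replicate : Primrec (fun n : ℕ => List.replicate n true) := by
  have h : Primrec (fun n : ℕ => (List.range n).map (fun _ => true)) :=
    Primrec.list_map Primrec.list_range (Primrec.const true).to₂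
  exact h.of_eq (fun n => by simp)

theorem computable_replicate {g : ℕ → ℕ} (hg : Computable g) :
    Computable (fun k => List.replicate (g k) true) := primrec_replicate.to_comp.comp hg

/-! ### From exclusion to the clique problem -/

/-- graphs with the data that depend on the parameter -/
abbrev Ia : Type :=
  (List ℕ × List (ℕ × ℕ)) × ((List Bool × List Bool) × (List Bool × List Bool))

/-- the data of an instance -/
def idt (z : List Bool) (VE : List ℕ × List (ℕ × ℕ)) : Ia :=
  (VE, (unpair (unpair (unpair z).2).1, unpair (unpair (unpair z).2).2))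

/-- the test for the candidates -/
def dcs (G : Ia → List (List ℕ)) (a : Ia) : Bool :=
  (G a).any fun w => decide (w.length = a.2.1.1.length) && vld a.1.1 a.1.2 w

theorem dcs_poly {G : Ia → List (List ℕ)} (hG : Poly G) : Poly (dcs G) := by
  refine NPC.Poly.any (l := G) (p := fun a w => decide (w.length = a.2.1.1.length) &&
    vld a.1.1 a.1.2 w) hG ?_
  have e1 : Poly (fun q : Ia × List ℕ => q.1) := NPC.Poly.fst NPC.Poly.id
  have e2 : Poly (fun q : Ia × List ℕ => q.2) := NPC.Poly.snd NPC.Poly.id
  exact NPC.Poly.and (NPC.Poly.decide_eq (NPC.Poly.length e2) (NPC.Poly.length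
    (NPC.Poly.fst (NPC.Poly.fst (NPC.Poly.snd e1)))))
    (vld_poly (NPC.Poly.fst (NPC.Poly.fst e1)) (NPC.Poly.snd (NPC.Poly.fst e1)) e2)

/-- the algorithm -/
def alg (G : Ia → List (List ℕ)) (z : List Bool) : Bool :=
  (unbits (List ℕ × List (ℕ × ℕ)) (unpair z).1).elim false fun VE => dcs G (idt z VE)

theorem alg_poly {G : Ia → List (List ℕ)} (hG : Poly G) : Poly (alg G) := by
  refine NPC.Poly.optElim (o := fun z => unbits (List ℕ × List (ℕ × ℕ)) (unpair z).1)
    (g := fun _ => false) (h := fun z VE => dcs G (idt z VE))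
    (poly_unbits.comp (NPC.Poly.fst poly_unpair)) (NPC.Poly.const _) ?_
  refine (dcs_poly hG).comp ?_
  have e1 : Poly (fun q : List Bool × (List ℕ × List (ℕ × ℕ)) => (unpair q.1).2) :=
    NPC.Poly.snd (poly_unpair.comp (NPC.Poly.fst NPC.Poly.id))
  have e2 : Poly (fun q : List Bool × (List ℕ × List (ℕ × ℕ)) => unpair (unpair q.1).2) :=
    poly_unpair.comp e1
  exact NPC.Poly.pair (NPC.Poly.snd NPC.Poly.id) (NPC.Poly.pair
    (poly_unpair.comp (NPC.Poly.fst e2)) (poly_unpair.comp (NPC.Poly.snd e2)))

theorem dcs_sound {G : Ia → List (List ℕ)} {a : Ia} (h : dcs G a = true) :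
    HasClq a.1.1 a.1.2 a.2.1.1.length := by
  classical
  unfold dcs at h
  rw [List.any_eq_true] at h
  obtain ⟨w, _, hw⟩ := h
  rw [Bool.and_eq_true, decide_eq_true_eq, vld_iff] at hw
  obtain ⟨h1, h2, h3⟩ := hw
  refine ⟨(vs a.1.1 w).toFinset, ?_, fun v hv => mem_vs h2 (List.mem_toFinset.1 hv),
    fun x hx y hy hxy => pairwise_mem h3 (List.mem_toFinset.1 hx) (List.mem_toFinset.1 hy) hxy⟩
  rw [List.toFinset_card_of_nodup (pairwise_nodup h3), ← h1]
  unfold vs
  rw [List.length_map]

/-- the question about a path -/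
def qc (R : List Bool → List Bool) (r : List Bool → ℕ) (p : Ia × List ℕ) : List Bool × ℕ :=
  (R (pairBits (bits (hg p.1.1.1 p.1.1.2 p.2)) p.1.2.1.2),
    r (pairBits (bits (hg p.1.1.1 p.1.1.2 p.2)) p.1.2.1.2))

theorem qc_poly {R : List Bool → List Bool} {r : List Bool → ℕ} (hR : Poly R) (hr : Poly r) :
    Poly (qc R r) := by
  have e1 : Poly (fun p : Ia × List ℕ => p.1) := NPC.Poly.fst NPC.Poly.id
  have e2 : Poly (fun p : Ia × List ℕ => bits (hg p.1.1.1 p.1.1.2 p.2)) :=
    bits_poly.comp (hg_poly (NPC.Poly.fst (NPC.Poly.fst e1)) (NPC.Poly.snd (NPC.Poly.fst e1))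
      (NPC.Poly.snd NPC.Poly.id))
  have e3 : Poly (fun p : Ia × List ℕ =>
      pairBits (bits (hg p.1.1.1 p.1.1.2 p.2)) p.1.2.1.2) :=
    H622R2.poly_pairBits e2 (NPC.Poly.snd (NPC.Poly.fst (NPC.Poly.snd e1)))
  exact NPC.Poly.pair (hR.comp e3) (hr.comp e3)

/-- **From exclusion to `p-Clique`.** -/
theorem clique_fpt {A : Set (List Bool × ℕ)} (hA : FptReduces PClique A)
    (h : FptFeasible (ExcludeSorted A)) : InFPT PClique := by
  obtain ⟨θR, g, R, r, hθR, hg', hR, hr, hRA⟩ := hA
  obtain ⟨θX, X, b, hθX, hX, hex⟩ := h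
  have hRp : Poly R := PIso.poly_iff.2 hR
  have hrp : Poly r := poly_of_polyTime hr
  have e1 : Poly (fun a : Ia => a.2.1) := NPC.Poly.fst (NPC.Poly.snd NPC.Poly.id)
  have e2 : Poly (fun a : Ia => a.2.2) := NPC.Poly.snd (NPC.Poly.snd NPC.Poly.id)
  obtain ⟨G, hG, hG2⟩ := engineT hX hex (α := Ia) (D := fun a => a.1.1.length)
    (n := fun a => a.2.1.1.length) (κ := fun a => a.2.2.1.length) (th := fun a => a.2.2.2)
    (UPoly.length (NPC.Poly.fst (NPC.Poly.fst NPC.Poly.id))) (UPoly.length (NPC.Poly.fst e1))
    (NPC.Poly.length (NPC.Poly.fst e2)) (NPC.Poly.snd e2) (qc_poly hRp hrp)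
  refine ⟨fun k => pairBits (pairBits (List.replicate k true) (θR k))
    (pairBits (List.replicate (g k) true) (θX (g k))), fun z => [alg G z],
    computable_pair (computable_pair (computable_replicate Computable.id) hθR)
      (computable_pair (computable_replicate hg') (hθX.comp hg')),
    polyTime_of_poly (alg_poly hG), fun x k => ?_⟩
  set t : List Bool := pairBits (pairBits (List.replicate k true) (θR k))
    (pairBits (List.replicate (g k) true) (θX (g k))) with ht
  have hidt : ∀ VE : List ℕ × List (ℕ × ℕ), idt (pairBits x t) VE =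
      (VE, ((List.replicate k true, θR k), (List.replicate (g k) true, θX (g k)))) := by
    intro VE
    unfold idt
    rw [unpair_pairBits, ht, unpair_pairBits]
    simp only [unpair_pairBits]
  rw [List.cons.injEq]
  simp only [and_true]
  unfold alg
  rw [unpair_pairBits]
  simp only
  constructor
  · rintro ⟨V, E, hx, hs⟩
    have hclq : HasClq V E k := by
      rw [← mem_pclique]
      exact ⟨V, E, rfl, hs⟩
    simp only at hx
    rw [hx, unbits_bits, Option.elim_some, ← hx, hidt]
    obtain ⟨w, hw, hw1, hw2, hw3⟩ := hG2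
      ((V, E), ((List.replicate k true, θR k), (List.replicate (g k) true, θX (g k))))
      (gdc V E k) (by simp only [List.length_replicate]) (by
        simp only [List.length_replicate]
        exact tree_gdc V E k) (gdc_nil.2 hclq) (fun u hu hd => by
        simp only [List.length_replicate] at hu hd ⊢
        have h1 := hRA (bits (hg V E u)) k
        refine ⟨h1.2, ?_⟩
        unfold qc
        simp only
        rw [← h1.1]
        have h2 : ((bits (hg V E u), k) : List Bool × ℕ) ∈ PClique ↔
            HasClq (hv V E (PT.brs V.length u)) (he E (PT.brs V.length u).length) k :=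
          mem_pclique
        rw [h2]
        exact left_iff hu hd)
    unfold dcs
    rw [List.any_eq_true]
    refine ⟨w, hw, ?_⟩
    simp only [List.length_replicate] at hw1
    rw [Bool.and_eq_true, decide_eq_true_eq]
    refine ⟨by simpa using hw1, ?_⟩
    exact ((gdc_iff (by omega)).1 hw3).1
  · intro h
    rcases hx : unbits (List ℕ × List (ℕ × ℕ)) x with _ | VE
    · rw [hx] at h
      simp at h
    · rw [hx, Option.elim_some, hidt] at h
      have h1 := dcs_sound h
      simp only [List.length_replicate] at h1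
      rw [← bits_of_unbits hx]
      exact (mem_pclique (V := VE.1) (E := VE.2)).2 h1

end Pool.Agent.TH762.FP
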