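import Pool.Agent.TH762.FP.Clq

/-!
# The reduction in polynomial time
-/

set_option autoImplicit false

namespace Pool.Agent.TH762.FP

open Pool.Agent.NPC Pool.Agent.H579R2.Spt
open Pool.Agent.TH762.PT (Tree num brs mem_brs brs_poly)

variable {α : Type} [TEnc α]

theorem adj_poly {E : α → List (ℕ × ℕ)} {u v : α → ℕ} (hE : Poly E) (hu : Poly u)
    (hv : Poly v) : Poly (fun a => adj (E a) (u a) (v a)) := by
  have h1 := NPC.Poly.and (NPC.Poly.not (NPC.Poly.decide_eq hu hv))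
    (NPC.Poly.or (NPC.Poly.decide_mem (NPC.Poly.pair hu hv) hE)
      (NPC.Poly.decide_mem (NPC.Poly.pair hv hu) hE))
  refine h1.congr fun a => ?_
  unfold adj
  congr

theorem vs_poly {V u : α → List ℕ} (hV : Poly V) (hu : Poly u) :
    Poly (fun a => vs (V a) (u a)) :=
  NPC.Poly.map (l := u) (F := fun a d => (V a).getD d 0) hu
    (NPC.Poly.getD (hV.comp (NPC.Poly.fst NPC.Poly.id)) (NPC.Poly.snd NPC.Poly.id)
      (NPC.Poly.const 0))

theorem vld_poly {V u : α → List ℕ} {E : α → List (ℕ × ℕ)} (hV : Poly V) (hE : Poly E)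
    (hu : Poly u) : Poly (fun a => vld (V a) (E a) (u a)) := by
  refine NPC.Poly.and (NPC.Poly.all (l := u) (p := fun a d => decide (d < (V a).length)) hu
    (NPC.Poly.decide_lt (NPC.Poly.snd NPC.Poly.id)
      (NPC.Poly.length (hV.comp (NPC.Poly.fst NPC.Poly.id))))) ?_
  refine NPC.Poly.all (l := fun a => List.range (u a).length)
    (p := fun a i => (List.range (u a).length).all fun j => decide (i ≤ j) ||
      adj (E a) ((vs (V a) (u a)).getD i 0) ((vs (V a) (u a)).getD j 0)) (UPoly.length hu).range ?_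
  refine NPC.Poly.all (l := fun q : α × ℕ => List.range (u q.1).length)
    (p := fun q j => decide (q.2 ≤ j) ||
      adj (E q.1) ((vs (V q.1) (u q.1)).getD q.2 0) ((vs (V q.1) (u q.1)).getD j 0))
    (UPoly.length (hu.comp (NPC.Poly.fst NPC.Poly.id))).range ?_
  have e1 : Poly (fun q : (α × ℕ) × ℕ => q.1.1) := NPC.Poly.fst (NPC.Poly.fst NPC.Poly.id)
  have e2 : Poly (fun q : (α × ℕ) × ℕ => q.1.2) := NPC.Poly.snd (NPC.Poly.fst NPC.Poly.id)
  have e3 : Poly (fun q : (α × ℕ) × ℕ => q.2) := NPC.Poly.snd NPC.Poly.id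
  have e4 : Poly (fun q : (α × ℕ) × ℕ => vs (V q.1.1) (u q.1.1)) :=
    vs_poly (hV.comp e1) (hu.comp e1)
  exact NPC.Poly.or (NPC.Poly.decide_le e2 e3) (adj_poly (hE.comp e1)
    (NPC.Poly.getD e4 e2 (NPC.Poly.const 0)) (NPC.Poly.getD e4 e3 (NPC.Poly.const 0)))

theorem cmp_poly {V u : α → List ℕ} {E : α → List (ℕ × ℕ)} (hV : Poly V) (hE : Poly E)
    (hu : Poly u) : Poly (fun a => cmp (V a) (E a) (u a)) := by
  refine NPC.Poly.filter (l := V) (p := fun a w => (vs (V a) (u a)).all fun x =>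
    decide (w = x) || adj (E a) w x) hV ?_
  refine NPC.Poly.all (l := fun q : α × ℕ => vs (V q.1) (u q.1)) (p := fun q x =>
    decide (q.2 = x) || adj (E q.1) q.2 x) ((vs_poly hV hu).comp (NPC.Poly.fst NPC.Poly.id)) ?_
  have e1 : Poly (fun q : (α × ℕ) × ℕ => q.1.1) := NPC.Poly.fst (NPC.Poly.fst NPC.Poly.id)
  have e2 : Poly (fun q : (α × ℕ) × ℕ => q.1.2) := NPC.Poly.snd (NPC.Poly.fst NPC.Poly.id)
  have e3 : Poly (fun q : (α × ℕ) × ℕ => q.2) := NPC.Poly.snd NPC.Poly.id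
  exact NPC.Poly.or (NPC.Poly.decide_eq e2 e3) (adj_poly (hE.comp e1) e2 e3)

theorem hv_poly {V : α → List ℕ} {E : α → List (ℕ × ℕ)} {B : α → List (List ℕ)} (hV : Poly V)
    (hE : Poly E) (hB : Poly B) : Poly (fun a => hv (V a) (E a) (B a)) := by
  refine NPC.Poly.flatMap (l := fun a => List.range (B a).length) (F := fun a i =>
    if vld (V a) (E a) ((B a).getD i []) = true then
      (cmp (V a) (E a) ((B a).getD i [])).map (fun w => w * (B a).length + i) else [])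
    (UPoly.length hB).range ?_
  have e1 : Poly (fun q : α × ℕ => q.1) := NPC.Poly.fst NPC.Poly.id
  have e2 : Poly (fun q : α × ℕ => (B q.1).getD q.2 []) :=
    NPC.Poly.getD (hB.comp e1) (NPC.Poly.snd NPC.Poly.id) (NPC.Poly.const [])
  have e3 : Poly (fun q : α × ℕ => (cmp (V q.1) (E q.1) ((B q.1).getD q.2 [])).map
      (fun w => w * (B q.1).length + q.2)) := by
    refine NPC.Poly.map (l := fun q : α × ℕ => cmp (V q.1) (E q.1) ((B q.1).getD q.2 []))
      (F := fun q w => w * (B q.1).length + q.2) (cmp_poly (hV.comp e1) (hE.comp e1) e2) ?_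
    exact NPC.Poly.add (NPC.Poly.mul (NPC.Poly.snd NPC.Poly.id) (NPC.Poly.length
      (hB.comp (NPC.Poly.fst (NPC.Poly.fst NPC.Poly.id)))))
      (NPC.Poly.snd (NPC.Poly.fst NPC.Poly.id))
  have h := NPC.Poly.cond (vld_poly (hV.comp e1) (hE.comp e1) e2) e3
    (NPC.Poly.const ([] : List ℕ))
  refine h.congr fun q => ?_
  cases vld (V q.1) (E q.1) ((B q.1).getD q.2 []) <;> rfl

theorem he_poly {E : α → List (ℕ × ℕ)} {L : α → ℕ} (hE : Poly E) (hL : UPoly L) :
    Poly (fun a => he (E a) (L a)) := by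
  refine NPC.Poly.flatMap (l := fun a => List.range (L a)) (F := fun a i =>
    (E a).map fun e => (e.1 * L a + i, e.2 * L a + i)) hL.range ?_
  refine NPC.Poly.map (l := fun q : α × ℕ => E q.1) (F := fun q e =>
    (e.1 * L q.1 + q.2, e.2 * L q.1 + q.2)) (hE.comp (NPC.Poly.fst NPC.Poly.id)) ?_
  have e1 : Poly (fun q : (α × ℕ) × (ℕ × ℕ) => L q.1.1) :=
    hL.toPoly.comp (NPC.Poly.fst (NPC.Poly.fst NPC.Poly.id))
  have e2 : Poly (fun q : (α × ℕ) × (ℕ × ℕ) => q.1.2) := NPC.Poly.snd (NPC.Poly.fst NPC.Poly.id)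
  exact NPC.Poly.pair (NPC.Poly.add (NPC.Poly.mul (NPC.Poly.fst (NPC.Poly.snd NPC.Poly.id)) e1)
    e2) (NPC.Poly.add (NPC.Poly.mul (NPC.Poly.snd (NPC.Poly.snd NPC.Poly.id)) e1) e2)

/-- the graph for a path -/
def hg (V : List ℕ) (E : List (ℕ × ℕ)) (u : List ℕ) : List ℕ × List (ℕ × ℕ) :=
  (hv V E (brs V.length u), he E (brs V.length u).length)

theorem hg_poly {V u : α → List ℕ} {E : α → List (ℕ × ℕ)} (hV : Poly V) (hE : Poly E)
    (hu : Poly u) : Poly (fun a => hg (V a) (E a) (u a)) := by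
  have h1 : Poly (fun a => brs (V a).length (u a)) := brs_poly (UPoly.length hV) hu
  exact NPC.Poly.pair (hv_poly hV hE h1) (he_poly hE (UPoly.length h1))

end Pool.Agent.TH762.FP
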