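import Pool.Agent.TH762.FP.Law

/-!
# Counting with few questions, and the equivalences
-/

set_option autoImplicit false

namespace Pool.Agent.TH762.FP

open Pool.Agent.NPC Pool.Agent.H579R2.Spt Pool.Agent.H251R5.PQ Pool.Agent.TH684.EX

theorem FptFeasible.mono {T T' : List (List Bool × ℕ) → ℕ → Prop} (h : FptFeasible T)
    (hT : ∀ qs l, T qs l → T' qs l) : FptFeasible T' := by
  obtain ⟨θ, X, b, hθ, hX, h⟩ := h
  refine ⟨θ, X, b, hθ, hX, fun n κ => ?_⟩
  obtain ⟨m, a, hm, ha, h1⟩ := h n κ
  exact ⟨m, a, hm, ha, fun qs hqs hlen => hT _ _ (h1 qs hqs hlen)⟩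

theorem sorted_of_count {A : Set (List Bool × ℕ)} (qs : List (List Bool × ℕ)) (c : ℕ)
    (h : ExcludeCount A qs c) : ExcludeSorted A qs c := by
  refine ⟨h.1, fun h1 => h.2 ?_⟩
  rw [h1, List.count_append, List.count_replicate, List.count_replicate]
  simp

/-- the list of instances and the advice -/
def lsp (z : List Bool) : List (List Bool × ℕ) × ℕ :=
  (unbits (List (List Bool × ℕ) × ℕ) (unpair z).1).getD ([], 0)

theorem lsp_poly : Poly lsp :=
  NPC.Poly.optGetD (g := fun _ => (([], 0) : List (List Bool × ℕ) × ℕ))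
    (poly_unbits.comp (NPC.Poly.fst poly_unpair)) (NPC.Poly.const _)

theorem lsp_bits (q : List (List Bool × ℕ) × ℕ) (t : List Bool) : lsp (pairBits (bits q) t) = q := by
  unfold lsp
  rw [unpair_pairBits, unbits_bits, Option.getD_some]

/-- a list of strings of the same length -/
def lsq (z : List Bool) : List Bool :=
  bits (((lsp z).1.map fun q => q.1, 0) : List (List Bool) × ℕ)

theorem lsq_poly : Poly lsq := by
  refine bits_poly.comp (NPC.Poly.pair ?_ (NPC.Poly.const 0))
  exact NPC.Poly.map (l := fun z => (lsp z).1) (F := fun _ q => q.1) (NPC.Poly.fst lsp_poly)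
    (NPC.Poly.fst (NPC.Poly.snd NPC.Poly.id))

theorem enq_lsq (z : List Bool) : enq (lsq z) = enuStep^[Nat.log 2 (lsp z).1.length] [[]] := by
  unfold enq lsq
  rw [dp_bits, List.length_map]

/-- the candidates for the number -/
def cdl (g : List Bool → ℕ) (z : List Bool) : List ℕ :=
  (enq (lsq z)).map (fun u => g (pairBits z u))

theorem cdl_poly {g : List Bool → ℕ} (hg : Poly g) : Poly (cdl g) := by
  unfold cdl
  refine NPC.Poly.map (l := fun z => enq (lsq z)) (F := fun z u => g (pairBits z u))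
    (enq_poly.comp lsq_poly) ?_
  exact hg.comp (Pool.Agent.H622R2.poly_pairBits (NPC.Poly.fst NPC.Poly.id)
    (NPC.Poly.snd NPC.Poly.id))

/-- the first number which is not a candidate -/
def ncl (g : List Bool → ℕ) (z : List Bool) : ℕ :=
  ((List.range ((lsp z).1.length + 1)).filter (fun c => !decide (c ∈ cdl g z))).head?.getD 0

theorem ncl_poly {g : List Bool → ℕ} (hg : Poly g) : Poly (ncl g) := by
  unfold ncl
  refine NPC.Poly.optGetD (NPC.Poly.head? (NPC.Poly.filter
    (l := fun z => List.range ((lsp z).1.length + 1)) (p := fun z c => !decide (c ∈ cdl g z))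
    ((UPoly.length (NPC.Poly.fst lsp_poly)).add (UPoly.const 1)).range ?_)) (NPC.Poly.const 0)
  exact NPC.Poly.not (NPC.Poly.decide_mem (NPC.Poly.snd NPC.Poly.id)
    ((cdl_poly hg).comp (NPC.Poly.fst NPC.Poly.id)))

theorem ncl_spec (g : List Bool → ℕ) (z : List Bool) (h : 1 ≤ (lsp z).1.length) :
    ncl g z ≤ (lsp z).1.length ∧ ncl g z ∉ cdl g z := by
  have h1 : ∃ c ∈ List.range ((lsp z).1.length + 1), c ∉ cdl g z := by
    by_contra hcon
    push Not at hcon
    have h2 : (Finset.range ((lsp z).1.length + 1)) ⊆ (cdl g z).toFinset := by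
      intro c hc
      exact List.mem_toFinset.2 (hcon c (List.mem_range.2 (Finset.mem_range.1 hc)))
    have h3 := Finset.card_le_card h2
    rw [Finset.card_range] at h3
    have h4 := List.toFinset_card_le (cdl g z)
    have h5 : (cdl g z).length = 2 ^ Nat.log 2 (lsp z).1.length := by
      unfold cdl
      rw [List.length_map, enq_lsq, enu_length]
    have h6 : 2 ^ Nat.log 2 (lsp z).1.length ≤ (lsp z).1.length :=
      Nat.pow_log_le_self 2 (by omega)
    omega
  obtain ⟨c, hc, hc2⟩ := h1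
  have h4 : c ∈ (List.range ((lsp z).1.length + 1)).filter (fun c => !decide (c ∈ cdl g z)) :=
    List.mem_filter.2 ⟨hc, by simpa using hc2⟩
  rcases hh : (List.range ((lsp z).1.length + 1)).filter (fun c => !decide (c ∈ cdl g z)) with
    _ | ⟨t, ts⟩
  · rw [hh] at h4
    simp at h4
  · have h5 : t ∈ (List.range ((lsp z).1.length + 1)).filter (fun c => !decide (c ∈ cdl g z)) := by
      rw [hh]; simp
    obtain ⟨h6, h7⟩ := List.mem_filter.1 h5
    have h8 := List.mem_range.1 h6
    unfold ncl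
    rw [hh]
    exact ⟨by simpa using (show t ≤ (lsp z).1.length by omega), by simpa using h7⟩

/-- From few questions to exclusion. -/
theorem count_of_questions {A : Set (List Bool × ℕ)} (h : FptCountQuestions A) :
    FptFeasible (ExcludeCount A) := by
  obtain ⟨θ, O, q, g, b, hθ, _, hg, h⟩ := h
  refine ⟨θ, ncl g, b, hθ, polyTime_bits (ncl_poly (poly_of_polyTime hg)), fun n κ => ?_⟩
  obtain ⟨m, a, hm1, hm, ha, h1⟩ := h n κ
  refine ⟨m, a, hm, ha, fun qs hqs hlen => ?_⟩
  have h2 := h1 qs hqs hlen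
  have hdp : (lsp (pairBits (bits (qs, a)) (θ κ))).1 = qs := by rw [lsp_bits]
  obtain ⟨h3, h4⟩ := ncl_spec g (pairBits (bits (qs, a)) (θ κ)) (by rw [hdp]; omega)
  rw [hdp] at h3
  refine ⟨h3, fun h5 => h4 ?_⟩
  rw [← h5, ← h2]
  unfold cdl
  rw [enq_lsq, hdp, hqs]
  exact List.mem_map.2 ⟨_, enu_mem _ _ (enu_adaptive _ _ _ _), rfl⟩

/-- a trivial problem -/
def Triv : Set (List Bool × ℕ) := {([true], 0)}

theorem reduces_triv {Q : Set (List Bool × ℕ)} (h : InFPT Q) : FptReduces Q Triv := by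
  obtain ⟨θ, V, hθ, hV, hQ⟩ := h
  refine ⟨θ, fun _ => 0, V, fun _ => 0, hθ, Computable.const 0, hV,
    polyTime_bits (NPC.Poly.const 0), fun x k => ⟨?_, le_rfl⟩⟩
  rw [hQ x k]
  unfold Triv
  simp

/-- one if the first question is the member of the trivial problem -/
def gt (z : List Bool) : ℕ :=
  if (lsp (unpair z).1).1.getD 0 ([], 0) = ([true], 0) then 1 else 0

theorem questions_triv : FptCountQuestions Triv := by
  refine ⟨fun _ => [], ∅, fun z => z, gt, 1, Computable.const _, polyTime_id,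
    polyTime_bits (NPC.Poly.ite (NPC.Poly.decide_eq (NPC.Poly.getD (NPC.Poly.fst
      (lsp_poly.comp (NPC.Poly.fst poly_unpair))) (NPC.Poly.const 0) (NPC.Poly.const _))
      (NPC.Poly.const _)) (NPC.Poly.const 1) (NPC.Poly.const 0)), fun n κ =>
    ⟨1, 0, le_rfl, by omega, by omega, fun qs hqs _ => ?_⟩⟩
  obtain ⟨y, rfl⟩ := List.length_eq_one_iff.1 hqs
  unfold gt
  rw [unpair_pairBits, lsp_bits]
  simp only [List.getD_cons_zero]
  by_cases h : y = ([true], 0)
  · rw [if_pos h, h]
    simp [yesno, Triv]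
  · rw [if_neg h]
    have h1 : y ∉ Triv := h
    simp [yesno, h1]

/-- **The exclusion law for `p-Clique`.** -/
theorem clique_law : List.TFAE
    [InFPT PClique,
      ∃ A : Set (List Bool × ℕ), FptReduces PClique A ∧ FptFeasible (ExcludeSorted A),
      ∃ A : Set (List Bool × ℕ), FptReduces PClique A ∧ FptFeasible (ExcludeCount A),
      ∃ A : Set (List Bool × ℕ), FptReduces PClique A ∧ FptCountQuestions A] := by
  tfae_have 1 → 4 := fun h => ⟨Triv, reduces_triv h, questions_triv⟩
  tfae_have 4 → 3 := by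
    rintro ⟨A, hA, h⟩
    exact ⟨A, hA, count_of_questions h⟩
  tfae_have 3 → 2 := by
    rintro ⟨A, hA, h⟩
    exact ⟨A, hA, h.mono sorted_of_count⟩
  tfae_have 2 → 1 := by
    rintro ⟨A, hA, h⟩
    exact clique_fpt hA h
  tfae_finish

end Pool.Agent.TH762.FP
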